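import Pool.Agent.Helper59.FG.Main
import Pool.Agent.Helper49.FS.ActBridge

/-!
# Cohomology of finite-dimensional Hopf algebras of complexity at most one

Let `A` be a finite-dimensional Hopf algebra over an arbitrary field `k`.  We show: if the trivial
module `k` has a projective resolution by finitely generated modules infinitely many terms of which
have dimension at most some constant `D` (equivalently, the dimensions of the terms of the minimal
projective resolution of `k` do not tend to infinity; in particular if `k` has complexity at most
one), then

* (fg1') `H^*(A, k) = Ext^*_A(k, k)` is a finitely generated `k`-algebra;
* (fg2') for all finite-dimensional `A`-modules `M`, `N` (in particular for `N = M`),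
  `Ext^*_A(M, N)` is a finitely generated module over `H^*(A, k)`, which acts through `- ⊗ M`
  followed by Yoneda composition.

Nothing is assumed on `A` besides this: the point of the proof is that a bounded minimal resolution
of the trivial module of a Hopf algebra is periodic, for every field.

The definitions used are in `Pool/Agent/Helper49/FS/Defs.lean` and `Act.lean`: `trivObj k A` is `k`
with the action through the counit, as an object of `ModuleCat A`; `FGH k A` is the conjunction of
the two conditions above, stated with Mathlib's groups `Ext X Y n` and their Yoneda product.
-/

open CategoryTheory
open scoped ModuleCat
open Pool.Agent.Helper49.FS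

namespace Pool.Agent.Results.MP_ffec1d_al.ComplexityOne

universe u

/-- If the trivial module of a finite-dimensional Hopf algebra `A` has a projective resolution `P`
by finitely generated modules with infinitely many terms of dimension at most `D`, then the algebra
`Ext_A(k, k)` is finitely generated, and for all finite-dimensional `A`-modules `M`, `N` the module
`Ext_A(M, N)` over it is finitely generated. -/
theorem result (k : Type u) [Field k] (A : Type u) [Ring A] [HopfAlgebra k A]
    [Module.Finite k A] (P : ProjectiveResolution (trivObj k A))
    (hP : ∀ n, Module.Finite A (P.complex.X n)) (D : ℕ)
    (hD : ∀ N : ℕ, ∃ n, N ≤ n ∧ Module.finrank k (P.complex.X n) ≤ D) : FGH k A := by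
  obtain ⟨h1, h2⟩ := Pool.Agent.Helper59.FG.main k A P hP D hD
  exact ⟨fgAlg_of_finiteType h1, fun M N hM hN => fgAct_of M N (h2 M N hM hN)⟩

end Pool.Agent.Results.MP_ffec1d_al.ComplexityOne
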