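import Pool.Agent.Helper49.FS.Defs
import Pool.Agent.Helper49.FS.Twist
import Pool.Agent.Helper49.FS.Act
import Pool.Agent.Helper49.FS.Ext
import Pool.Agent.Helper49.FS.ExtBridge

/-!
# The conditions (fg1') and (fg2') and extensions of Hopf algebras

Let `k` be any field.  We show that (fg1') and (fg2') hold for all finite-dimensional Hopf algebras `B`
over `k` which are reached from a semisimple Hopf algebra `C`, or from one which satisfies (fg1') and
(fg2'), by finitely many steps of the following kinds.  In the first four `k → A → B → B' → k` is an
exact sequence of Hopf algebras over `k`.

* (ss) from `B'` to `B`, if `A` is semisimple.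
* (act) from `B'` to `B`, if `B` acts on `A` (adjoint action) through a semisimple quotient Hopf
  algebra `D` of `B`; for `D = k` this says that `A` is central in `B`.
* (twist) from `B'` to `B`, if `k` has characteristic `p > 0`, `A` is commutative and generated by a
  subspace `U` of primitive elements, stable under the action of `B`, and `B` acts on the Frobenius
  twist `U^(1)` through a semisimple quotient Hopf algebra of `B`.
* (lift) from `B'` to `B`, if `k` has characteristic `p > 0`, `A = k[x_1, ..., x_n] / (x_i ^ q)` as an
  algebra, for a power `q > 1` of `p` and elements `x_i` of the augmentation ideal of `A`, and the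
  action of `B` on `A` lifts to an action of `B` on the algebra `P = k[X_1, ..., X_n] / (X_i ^ q X_j)`
  which is trivial on `A` and such that `B` acts on the kernel of `P → A` (it is spanned by the
  `X_i ^ q`) through a semisimple quotient Hopf algebra of `B` and the matrix coefficients of this
  action are central in the dual algebra of `B`.
* (up) from a Hopf subalgebra `A` of `B` to `B`, if `k` is a direct summand of the `B`-module
  `B ⊗_A k` (for instance if `A` is normal and `B // A` semisimple, or for group algebras, if the
  index is invertible in `k`).
* (proj) from a finite-dimensional Hopf algebra `B'` to `B`, if there is a homomorphism of algebras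
  `B → B'` such that `B'` is a projective `B`-module (for instance, if `B` is a Hopf subalgebra of `B'`,
  by the theorem of Nichols and Zoeller, or if `B` and `B'` are isomorphic as algebras, for instance if
  they differ by a Drinfeld twist).

`FGH k B` says that `B` satisfies (fg1') and (fg2'), the latter not only for `Ext_B(M, M)`, but for
`Ext_B(M, N)` for all finite-dimensional `B`-modules `M`, `N`.
-/

open Pool.Agent.Helper49.FS

namespace Pool.Agent.Results.MP_ffec1d_al.ExtensionSeries

universe u

/-- Let `B` be a finite-dimensional Hopf algebra over any field `k` which is reached from a Hopf
algebra `C` by finitely many of the steps (ss), (act), (twist), (lift), (up), (proj) above (for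
instance, `B` obtained from `C` by finitely many central extensions). If `C` satisfies (fg1') and
(fg2'), or `C` is semisimple, then `B` satisfies (fg1') and (fg2'). -/
theorem result (k : Type u) [Field k] (B C : Type u) [Ring B] [Ring C] [HopfAlgebra k B]
    [HopfAlgebra k C] [Module.Finite k B] (h : ExtSteps k C B)
    (hC : FGH k C ∨ IsSemisimpleRing C) : FGH k B :=
  ext_main k B C h hC

end Pool.Agent.Results.MP_ffec1d_al.ExtensionSeries
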