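import Pool.Agent.Helper49.FS.Defs
import Pool.Agent.Helper49.FS.Act
import Pool.Agent.Helper49.FS.Fgh

/-!
# The conditions (fg1') and (fg2') for local Hopf algebras with a local dual

Let `k` be any field. We show that every finite-dimensional Hopf algebra `B` over `k` which is a
local ring and whose dual algebra is a local ring satisfies (fg1') and (fg2'). (The dual is local if
and only if `B` is connected as a coalgebra.)

The proof: such a Hopf algebra, if it is not `k`, contains a nonzero central primitive element, so
that it is obtained from `k` by finitely many central extensions, and the conditions (fg1') and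
(fg2') pass to central extensions (`Pool/Agent/Helper90/FC`).

`FGH k B` says that `B` satisfies (fg1') and (fg2'), the latter not only for `Ext_B(M, M)`, but for
`Ext_B(M, N)` for all finite-dimensional `B`-modules `M`, `N`. `WithConv (B →ₗ[k] k)` is Mathlib's
convolution algebra: its product is `f * g : b ↦ ∑ f(b₁) g(b₂)`, so it is the dual algebra of the
coalgebra `B`.
-/

open Pool.Agent.Helper49.FS

namespace Pool.Agent.Results.MP_ffec1d_al.LocalWithLocalDual

universe u

/-- Let `B` be a finite-dimensional Hopf algebra over a field `k` such that the ring `B` is local
and the dual algebra of `B` is local. Then `B` satisfies (fg1') and (fg2'). -/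
theorem result (k : Type u) [Field k] (B : Type u) [Ring B] [HopfAlgebra k B] [Module.Finite k B]
    (hB : IsLocalRing B) (hd : IsLocalRing (WithConv (B →ₗ[k] k))) : FGH k B :=
  fgh_of_local hB hd

end Pool.Agent.Results.MP_ffec1d_al.LocalWithLocalDual
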