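import Pool.Agent.Helper49.FS.Defs
import Pool.Agent.Helper49.FS.Act
import Pool.Agent.Helper49.FS.PExt
import Pool.Agent.Helper49.FS.PExtBridge

/-!
# The conditions (fg1') and (fg2') and quotients by principal Hopf ideals

Let `k` be any field. We show that (fg1') and (fg2') pass from `C` to `B` if `B` and `C` are
finite-dimensional Hopf algebras and `π : B → C` is a surjective homomorphism whose kernel is a
principal left ideal `B X`, if one of the following conditions is satisfied (`PrincipalExt`): `B` is a
local ring; or `X` is nilpotent and `X b - b X ∈ B X²` for all `b` in `B`; or `X` is nilpotent and the
counit is the only homomorphism of algebras `B → k`. The element `X` need not be central or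
primitive, and the kernel need not come from a proper normal Hopf subalgebra of `B`.

In particular, for a local Hopf algebra `B` which has a sequence of quotient Hopf algebras
`B = B_0, B_1, …, B_r = C`, such that the kernels of `B_i → B_(i+1)` are principal left ideals, (fg1')
and (fg2') pass from `C` to `B`.

`FGH k B` says that `B` satisfies (fg1') and (fg2'), the latter not only for `Ext_B(M, M)`, but for
`Ext_B(M, N)` for all finite-dimensional `B`-modules `M`, `N`. The proof is in
`Pool/Agent/Helper77/PE.lean`.

Idea of the proof. Let `p` be the characteristic. By the theory of Hopf modules all quotients
`B X ^ j / B X ^ (j + 1)` with `X ^ j ≠ 0` are free of rank one over `C`. After the multiplication of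
`X` by a unit one has `X b - b X ∈ B X²`, and `X ^ N = 0`, `dim B = N dim C` with `N = p ^ s`. The
cobar complex of `B*` contains a cochain `β` of degree two which is the Bockstein class of
`k[X]/(X ^ N)` on the associated graded algebra; its boundary can be made `y = λ κ + w`, where `κ`, `w`
come from `C*` and `λ` is one element of `B*`. (This is not zero in general; for central `X` one
can have `κ = 0`.) The right action `R_y` on cochains satisfies `R_y ^ (N - 1) y = λ ^ N κ ^ N + …`,
which comes from `C*` up to boundaries, and `(R_y + L_β) ^ (N - 1) β` is a cochain with this boundary.
Since the cohomology of `C` is Noetherian, a further power of `p` makes the boundary zero, and gives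
a class of `B` whose value on `k[X]/(X ^ N)` is not nilpotent.
-/

open Pool.Agent.Helper49.FS

namespace Pool.Agent.Results.MP_ffec1d_al.PrincipalExtensions

universe u

/-- Let `B` be a finite-dimensional Hopf algebra which is obtained from a Hopf algebra `C` by finitely
many principal extensions. If `C` satisfies (fg1') and (fg2'), or `C` is semisimple, then `B` satisfies
(fg1') and (fg2'). -/
theorem result (k : Type u) [Field k] (B C : Type u) [Ring B] [Ring C] [HopfAlgebra k B]
    [HopfAlgebra k C] [Module.Finite k B] (h : IterPrincipal k C B)
    (hC : FGH k C ∨ IsSemisimpleRing C) : FGH k B :=
  pext_main k B C h hC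

end Pool.Agent.Results.MP_ffec1d_al.PrincipalExtensions
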